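import Pool.Agent.H76.FF.Defs

/-! # The symbol of the first obstruction is regular at the special points -/

namespace Pool.Agent.H76.FF

variable {I : Img} {n : ℕ} {a : ℤ}

/-- lifting from `D` to `D_(k+1)` -/
theorem Img.exists_one {I : Img} (q : ℕ) (m : ℤ) (z : I.Z) : ∀ k : ℕ, (∀ j, j < k + 1 → I.S j) →
    ∀ y, ∃ u, I.one q m z k u = y
  | 0, _, y => ⟨y, rfl⟩
  | k + 1, hS, y => by
    obtain ⟨u, hu⟩ := Img.exists_one q m z k (fun j hj => hS j (by omega)) y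
    obtain ⟨v, hv⟩ := hS (k + 1) (by omega) q m z u
    exact ⟨v, by rw [Img.one, LinearMap.comp_apply, hv, hu]⟩

theorem Symbol.Spec.rho_one {A : Symbol I n a} (hP : A.Spec) (z : A.Sp) (β : A.Br z) :
    ∀ (k : ℕ) (u : I.R 1 (k + 1) a (A.sp z)),
      A.rho z β 1 (I.one 1 a _ k u) = I.one 1 a _ k (A.rho z β (k + 1) u)
  | 0, u => rfl
  | k + 1, u => by
    rw [Img.one, LinearMap.comp_apply, Symbol.Spec.rho_one hP z β k, hP.rho_res, Img.one,
      LinearMap.comp_apply]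

/-- [Special] helper54 -/
theorem Symbol.Spec.bdd (A : Symbol I n a) (_ : A.Gen) (hP : A.Spec)
    (hS : ∀ j, j < n + 1 → I.S j) (c : ∀ g, I.R 1 1 (-(n + 1)) (I.pt g))
    (hc : ∀ g v u, I.one 1 a _ n u = A.pr g v → A.dd g u = A.pair g (c g) (A.pr g (A.na g v))) :
    A.Bdd c := by
  intro z β e he
  obtain ⟨e', he', hte⟩ := hP.onto z β e he
  obtain ⟨u, hu, hu'⟩ := hP.cls z β e' he'
  obtain ⟨y, hy⟩ := Img.exists_one 1 a (A.sp z) n hS u
  have h0 : A.rs z β (A.om z y) ∈ A.Reg z β := by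
    apply hP.residue
    intro β' hβ
    rw [hP.rs_om, hc _ 0 _ (by rw [← hP.rho_one, hy, hu' β' hβ, map_zero]), map_zero, map_zero,
      map_zero]
  rw [hP.rs_om, hc _ e' _ (by rw [← hP.rho_one, hy, hu])] at h0
  refine ⟨_, h0, ?_⟩
  rw [← hte, map_smul, map_smul, smul_eq_mul]

end Pool.Agent.H76.FF
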